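import Mathlib
import Pool.Agent.H925R3.DD.Stubs
import Pool.Agent.H318R5.DC.DC_PRM

/-! Covers of degree `d` of products of elliptic curves: many primes `p ≡ α mod M` whose shifts
divide one integer. -/

namespace Pool.Agent.H781R2.DD

open Finset Filter
open Pool.Agent.H925R3.DC Pool.Agent.H925R3.DD Pool.Agent.H410R2
open Pool.Agent.H318R5.DC (prm_dvd prm_log)

theorem exists_isRes (M : ℕ) (α e : ℤ) (hM : 0 < M) : ∃ r : ℕ → ℕ, IsRes M α e r := by
  have key : ∀ q : ℕ, ∃ r : ℕ, q.Prime → ¬ q ∣ M →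
      (M : ℤ) ∣ (r : ℤ) - α ∧ (q : ℤ) ∣ (r : ℤ) + e := by
    intro q
    by_cases h : q.Prime ∧ ¬ q ∣ M
    · obtain ⟨hq, hqM⟩ := h
      have hcop : IsCoprime (M : ℤ) (q : ℤ) :=
        Nat.isCoprime_iff_coprime.2 ((Nat.Prime.coprime_iff_not_dvd hq).2 hqM).symm
      obtain ⟨a, b, hab⟩ := hcop
      have hMq : (0 : ℤ) < (M : ℤ) * q := by
        have := hq.pos
        positivity
      obtain ⟨z, hz⟩ : ∃ z : ℤ, z = α * (b * q) - e * (a * M) := ⟨_, rfl⟩
      refine ⟨(z % ((M : ℤ) * q)).toNat, fun _ _ => ?_⟩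
      have h0 : 0 ≤ z % ((M : ℤ) * q) := Int.emod_nonneg _ hMq.ne'
      rw [Int.toNat_of_nonneg h0]
      have h1 : z % ((M : ℤ) * q) = z - (M : ℤ) * q * (z / ((M : ℤ) * q)) := by
        have := Int.emod_add_mul_ediv z ((M : ℤ) * q)
        linarith
      rw [h1]
      constructor
      · refine ⟨-a * (α + e) - q * (z / ((M : ℤ) * q)), ?_⟩
        rw [hz]
        linear_combination α * hab
      · refine ⟨b * (α + e) - M * (z / ((M : ℤ) * q)), ?_⟩
        rw [hz]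
        linear_combination (-e) * hab
    · exact ⟨0, fun h1 h2 => absurd ⟨h1, h2⟩ h⟩
  choose r hr using key
  exact ⟨r, fun q hq hqM => hr q hq hqM⟩

theorem prmg_card {M : ℕ} {α e : ℤ} {d X : ℝ} {D : ℕ} (hD : 0 < D) {S : Finset ℕ}
    (hS : ∀ p ∈ PPG M α e d X, 2 < p → ¬ p ∣ D → p ∈ S) :
    (PPG M α e d X).card ≤ S.card + (D + 3) := by
  classical
  have h1 : PPG M α e d X ⊆ S ∪ range (D + 3) := by
    intro p hp
    rw [mem_union, mem_range]
    by_cases h2 : 2 < p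
    · by_cases h3 : p ∣ D
      · right
        have := Nat.le_of_dvd hD h3
        omega
      · exact Or.inl (hS p hp h2 h3)
    · right
      omega
  calc (PPG M α e d X).card ≤ (S ∪ range (D + 3)).card := card_le_card h1
    _ ≤ S.card + (range (D + 3)).card := card_union_le _ _
    _ = S.card + (D + 3) := by rw [card_range]

theorem prmg (hb : BVAP) (hp : PNTLog) (h1 : PRMQ) (h2 : PRMSG) (h3 : PRMCG) : PRMG := by
  classical
  intro M D α e hM hD hα he ε hε
  obtain ⟨r, hr⟩ := exists_isRes M α e hM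
  obtain ⟨d, hd0, hd1, hd2⟩ : ∃ d : ℝ, 0 < d ∧ d ≤ 1 / 8 ∧ 3 * d ≤ ε := by
    refine ⟨min (ε / 3) (1 / 8), by positivity, min_le_right _ _, ?_⟩
    have := min_le_left (ε / 3) (1 / 8 : ℝ)
    linarith
  obtain ⟨X1, hX1⟩ := h2 hb hp h1 M α e hM hα he r hr d hd0 hd1
  obtain ⟨X2, hX2⟩ := h3 M α e hM hα he r hr d hd0 hd1
  obtain ⟨η, hη⟩ : ∃ η : ℝ, η = d / 8 := ⟨_, rfl⟩
  have hη0 : 0 < η := by rw [hη]; positivity
  have hMR : (1 : ℝ) ≤ M := by exact_mod_cast hM
  have hDR : (0 : ℝ) ≤ D := Nat.cast_nonneg _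
  have hlog : ∀ᶠ X : ℝ in atTop, Real.log X ≤ X ^ η := by
    have := (isLittleO_log_rpow_atTop hη0).bound one_pos
    filter_upwards [this, eventually_ge_atTop (1 : ℝ)] with X hX hX1
    rw [one_mul, Real.norm_of_nonneg (Real.log_nonneg hX1),
      Real.norm_of_nonneg (Real.rpow_nonneg (by linarith) _)] at hX
    exact hX
  have hbig : ∀ᶠ X : ℝ in atTop, max 16 (32 * (M : ℝ) * (D + 6)) ≤ X ^ η :=
    (tendsto_rpow_atTop hη0).eventually_ge_atTop _
  obtain ⟨X3, hX3⟩ := eventually_atTop.1 (hlog.and hbig)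
  refine ⟨max (max X1 X2) (max X3 16), fun X hX => ?_⟩
  have hXX1 : X1 ≤ X := (le_max_left _ _).trans ((le_max_left _ _).trans hX)
  have hXX2 : X2 ≤ X := (le_max_right _ _).trans ((le_max_left _ _).trans hX)
  have hXX3 : X3 ≤ X := (le_max_left _ _).trans ((le_max_right _ _).trans hX)
  have hX16 : 16 ≤ X := (le_max_right _ _).trans ((le_max_right _ _).trans hX)
  obtain ⟨hL, hB⟩ := hX3 X hXX3
  have hB16 : 16 ≤ X ^ η := (le_max_left _ _).trans hB
  have hBM : 32 * (M : ℝ) * (D + 6) ≤ X ^ η := (le_max_right _ _).trans hB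
  have hX0 : 0 < X := by linarith
  have hL1 : 1 ≤ Real.log X := by
    rw [Real.le_log_iff_exp_le hX0]
    have := Real.exp_one_lt_d9
    linarith
  have hmain : X ≤ 32 * M * Real.log X ^ 4 *
      ((PPG M α e d X).card + 2 * Real.sqrt X * Real.log X) := by
    have e1 := (hX1 X hXX1).trans (hX2 X hXX2)
    rw [div_le_iff₀ (by positivity)] at e1
    calc X ≤ _ := e1
      _ = _ := by ring
  have hsmall : 32 * M * Real.log X ^ 4 *
      (X ^ (1 - ε) + 2 * Real.sqrt X * Real.log X + (D + 3)) ≤ X := by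
    have hL4 : Real.log X ^ 4 ≤ X ^ (4 * η) := by
      calc Real.log X ^ 4 ≤ (X ^ η) ^ 4 := pow_le_pow_left₀ (by linarith) hL 4
        _ = X ^ (4 * η) := by
            rw [← Real.rpow_natCast, ← Real.rpow_mul hX0.le]
            congr 1
            push_cast
            ring
    have a1 : X ^ (1 - ε) ≤ X ^ (1 - 5 * η) :=
      Real.rpow_le_rpow_of_exponent_le (by linarith) (by rw [hη]; linarith)
    have a2 : Real.sqrt X * Real.log X ≤ X ^ (1 - 5 * η) := by
      rw [Real.sqrt_eq_rpow]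
      calc X ^ (1 / 2 : ℝ) * Real.log X ≤ X ^ (1 / 2 : ℝ) * X ^ η :=
            mul_le_mul_of_nonneg_left hL (Real.rpow_nonneg hX0.le _)
        _ = X ^ (1 / 2 + η) := (Real.rpow_add hX0 _ _).symm
        _ ≤ _ := Real.rpow_le_rpow_of_exponent_le (by linarith) (by rw [hη]; linarith)
    have a3 : (1 : ℝ) ≤ X ^ (1 - 5 * η) := Real.one_le_rpow (by linarith) (by rw [hη]; linarith)
    have a4 : X ^ (1 - ε) + 2 * Real.sqrt X * Real.log X + (D + 3) ≤
        (D + 6) * X ^ (1 - 5 * η) := by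
      have a5 : ((D : ℝ) + 3) * 1 ≤ (D + 3) * X ^ (1 - 5 * η) :=
        mul_le_mul_of_nonneg_left a3 (by linarith)
      linarith
    have a6 : 0 ≤ X ^ (1 - ε) + 2 * Real.sqrt X * Real.log X + (D + 3) := by positivity
    have a7 : X ^ (4 * η) * X ^ (1 - 5 * η) = X ^ (1 - η) := by
      rw [← Real.rpow_add hX0]
      congr 1
      ring
    calc 32 * M * Real.log X ^ 4 * (X ^ (1 - ε) + 2 * Real.sqrt X * Real.log X + (D + 3))
        ≤ 32 * M * X ^ (4 * η) * ((D + 6) * X ^ (1 - 5 * η)) := by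
          apply mul_le_mul _ a4 a6 (by positivity)
          exact mul_le_mul_of_nonneg_left hL4 (by positivity)
      _ = 32 * (M : ℝ) * (D + 6) * (X ^ (4 * η) * X ^ (1 - 5 * η)) := by ring
      _ = 32 * (M : ℝ) * (D + 6) * X ^ (1 - η) := by rw [a7]
      _ ≤ X ^ η * X ^ (1 - η) :=
          mul_le_mul_of_nonneg_right hBM (Real.rpow_nonneg hX0.le _)
      _ = X := by
          rw [← Real.rpow_add hX0]
          have : η + (1 - η) = 1 := by ring
          rw [this, Real.rpow_one]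
  have hPP : X ^ (1 - ε) + (D + 3) ≤ ((PPG M α e d X).card : ℝ) := by
    have h4 := le_of_mul_le_mul_left (hsmall.trans hmain) (by positivity)
    linarith
  refine ⟨(PPG M α e d X).filter (fun p => 2 < p ∧ ¬ p ∣ D),
    ⌊4 * X ^ (1 / 2 + 2 * d)⌋₊.factorial ^ 2, by positivity, ?_, ?_, ?_⟩
  · intro p hpS
    rw [mem_filter] at hpS
    obtain ⟨hpP, hp2, hpD⟩ := hpS
    unfold PPG at hpP
    rw [mem_filter, mem_Icc] at hpP
    obtain ⟨⟨-, hpX⟩, hpp, hpM, q, hq, hqd⟩ := hpP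
    have hpX' : (p : ℝ) ≤ X := (Nat.cast_le.2 hpX).trans (Nat.floor_le hX0.le)
    exact ⟨hpp, hp2, hpX', hpD, hpM, prm_dvd (by linarith) hd0 he hp2 hpX' hq hqd⟩
  · have h4 := prmg_card (M := M) (α := α) (e := e) (d := d) (X := X) hD
      (S := (PPG M α e d X).filter (fun p => 2 < p ∧ ¬ p ∣ D))
      (fun p hp1 hp2 hp3 => mem_filter.2 ⟨hp1, hp2, hp3⟩)
    have h5 : ((PPG M α e d X).card : ℝ) ≤
        (((PPG M α e d X).filter (fun p => 2 < p ∧ ¬ p ∣ D)).card : ℝ) + (D + 3) := by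
      exact_mod_cast h4
    linarith
  · refine (prm_log (by linarith) hd0 hd1).trans ?_
    have hs : 0 ≤ X ^ (1 / 2 + 2 * d) := Real.rpow_nonneg hX0.le _
    calc 16 * X ^ (1 / 2 + 2 * d) * Real.log X
        ≤ X ^ η * X ^ (1 / 2 + 2 * d) * X ^ η :=
          mul_le_mul (mul_le_mul_of_nonneg_right hB16 hs) hL (by linarith) (by positivity)
      _ = X ^ (η + (1 / 2 + 2 * d) + η) := by
          rw [Real.rpow_add hX0 (η + (1 / 2 + 2 * d)) η, Real.rpow_add hX0 η (1 / 2 + 2 * d)]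
      _ ≤ X ^ (1 / 2 + ε) :=
          Real.rpow_le_rpow_of_exponent_le (by linarith) (by rw [hη]; linarith)

end Pool.Agent.H781R2.DD
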